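import Mathlib
import Pool.Agent.Y909.NA.Fin

set_option autoImplicit false

namespace Pool.Agent.Results.MP_0a44cb_nt.BadlyApproximable

open Filter Topology

/-- the number `Σ 8^(-2^j)` -/
noncomputable def alpha : ℝ := ∑' j : ℕ, (1 / 8 : ℝ) ^ (2 ^ j)

/-- the `(k+1)`-level correlation of the fractional parts `x_n` of `n² α`, `1 ≤ n ≤ N`: the sum over
all `(k+1)`-tuples of distinct indices `n 0, …, n k` and all integer vectors `m` of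
`f (N (x_{n 0} - x_{n 1} + m 0), …, N (x_{n (k-1)} - x_{n k} + m (k-1)))`, divided by `N` -/
noncomputable def correlation (α : ℝ) (k : ℕ) (f : (Fin k → ℝ) → ℝ) (N : ℕ) : ℝ :=
  (1 / (N : ℝ)) * ∑ n : Fin (k + 1) ↪ Fin N, ∑' m : Fin k → ℤ,
    f (fun i => (N : ℝ) * (Int.fract (((n i.castSucc : ℕ) + 1 : ℝ) ^ 2 * α) -
      Int.fract (((n i.succ : ℕ) + 1 : ℝ) ^ 2 * α) + m i))

theorem result :
    Irrational alpha ∧
    (∃ C : ℝ, 0 < C ∧ ∀ (a : ℤ) (q : ℕ), 1 ≤ q → C / (q : ℝ) ^ 2 ≤ |alpha - a / q|) ∧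
    (∃ N : ℕ → ℕ, StrictMono N ∧ ∀ k : ℕ, 4 ≤ k → ∀ f : (Fin k → ℝ) → ℝ, Continuous f →
      HasCompactSupport f → (∀ y, 0 ≤ f y) → 0 < f 0 →
        Tendsto (fun j => correlation alpha k f (N j)) atTop atTop) ∧
    (∃ f : (Fin 3 → ℝ) → ℝ, Continuous f ∧ HasCompactSupport f ∧
      ¬ Tendsto (fun N => correlation alpha 3 f N) atTop (𝓝 (∫ y, f y))) := by
  refine ⟨Y909.NA.kem_irr, ⟨1 / 5120, by norm_num, Y909.NA.bad⟩,
    ⟨fun j => Y909.NA.v j ^ 63, ?_, fun k hk f h1 h2 h3 h4 => Y909.NA.diverge k hk f h1 h2 h3 h4⟩,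
    ⟨Y909.NA.tent, Y909.NA.tent_cont, Y909.NA.tent_supp, Y909.NA.four⟩⟩
  intro a b hab
  exact Nat.pow_lt_pow_left (Y909.NA.v_mono hab) (by norm_num)

end Pool.Agent.Results.MP_0a44cb_nt.BadlyApproximable
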